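import Mathlib

/-!
# The weak Shanks conjecture fails on the bidisk (MP_52e642_an, Q1, negated form)

The polynomial `f = (4 + 3 z₁) (4 + 3 z₂) (2 + z₁ z₂)²` has no zero on the closed bidisk, and its
optimal polynomial approximant of index `2` (with respect to `span {1, z₁, z₂}`) is a nonzero
multiple of `31137 - 15900 (z₁ + z₂)`, which vanishes at `z₁ = z₂ = 10379/10600`.
-/

namespace Pool.Agent.Results.MP_52e642_an.WeakShanks

open MvPolynomial

/-- The position (counted from `0`) of the monomial `z₁ ^ (m 0) * z₂ ^ (m 1)` in the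
degree-lexicographic ordering `1, z₁, z₂, z₁², z₁ z₂, z₂², z₁³, …`. -/
def pos (m : Fin 2 →₀ ℕ) : ℕ := (m 0 + m 1) * (m 0 + m 1 + 1) / 2 + m 1

/-- The space `𝒫_n`, spanned by the first `n + 1` monomials in the degree-lexicographic
ordering. -/
noncomputable def P (n : ℕ) : Submodule ℂ (MvPolynomial (Fin 2) ℂ) :=
  Submodule.span ℂ {p | ∃ m : Fin 2 →₀ ℕ, pos m ≤ n ∧ p = monomial m 1}

/-- The squared norm of a polynomial in `H²(𝔻²)`: the sum of the squared moduli of its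
coefficients. -/
noncomputable def normSqH2 (p : MvPolynomial (Fin 2) ℂ) : ℝ :=
  ∑ m ∈ p.support, ‖p.coeff m‖ ^ 2

/-- `q` is an `n`-th optimal polynomial approximant of `1/f` in `H²(𝔻²)`. -/
def IsOPA (f : MvPolynomial (Fin 2) ℂ) (n : ℕ) (q : MvPolynomial (Fin 2) ℂ) : Prop :=
  q ∈ P n ∧ ∀ p ∈ P n, normSqH2 (q * f - 1) ≤ normSqH2 (p * f - 1)

/-- exponent vector -/
noncomputable def mono (i j : ℕ) : Fin 2 →₀ ℕ := Finsupp.single 0 i + Finsupp.single 1 j

lemma mono_zero (i j : ℕ) : mono i j 0 = i := by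
  simp [mono]

lemma mono_one (i j : ℕ) : mono i j 1 = j := by
  simp [mono]

lemma mono_inj : Function.Injective (fun x : Fin 5 × Fin 5 => mono x.1 x.2) := by
  rintro ⟨a, b⟩ ⟨c, d⟩ h
  have h0 := congrArg (fun m : Fin 2 →₀ ℕ => m 0) h
  have h1 := congrArg (fun m : Fin 2 →₀ ℕ => m 1) h
  simp only [mono_zero, mono_one] at h0 h1
  exact Prod.ext (Fin.ext h0) (Fin.ext h1)

lemma normSq_table (c : Fin 5 × Fin 5 → ℂ) :
    normSqH2 (∑ x : Fin 5 × Fin 5, monomial (mono x.1 x.2) (c x)) = ∑ x, ‖c x‖ ^ 2 := by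
  classical
  set p := ∑ x : Fin 5 × Fin 5, monomial (mono x.1 x.2) (c x) with hp
  have hco : ∀ y : Fin 5 × Fin 5, p.coeff (mono y.1 y.2) = c y := by
    intro y
    rw [hp, coeff_sum]
    rw [Finset.sum_eq_single y]
    · simp
    · intro b _ hb
      rw [coeff_monomial, if_neg]
      intro h
      exact hb (mono_inj h)
    · simp
  have hsub : p.support ⊆ Finset.univ.image (fun x : Fin 5 × Fin 5 => mono x.1 x.2) := by
    intro m hm
    by_contra hcon
    rw [mem_support_iff] at hm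
    apply hm
    rw [hp, coeff_sum]
    apply Finset.sum_eq_zero
    intro x _
    rw [coeff_monomial, if_neg]
    intro h
    exact hcon (Finset.mem_image.2 ⟨x, Finset.mem_univ _, h⟩)
  unfold normSqH2
  rw [Finset.sum_subset hsub]
  · rw [Finset.sum_image (fun a _ b _ h => mono_inj h)]
    exact Finset.sum_congr rfl (fun x _ => by rw [hco x])
  · intro m _ hm
    rw [mem_support_iff, not_not] at hm
    simp [hm]

/-- The polynomial `(4 + 3 z₁) (4 + 3 z₂) (2 + z₁ z₂)²`. -/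
noncomputable def f : MvPolynomial (Fin 2) ℂ :=
  (4 + 3 * X 0) * (4 + 3 * X 1) * (2 + X 0 * X 1) ^ 2

lemma f_ne_zero (z : Fin 2 → ℂ) (h0 : ‖z 0‖ ≤ 1) (h1 : ‖z 1‖ ≤ 1) : eval z f ≠ 0 := by
  have key : ∀ w : ℂ, ‖w‖ ≤ 1 → (4 + 3 * w) ≠ 0 := by
    intro w hw h
    have h4 : ‖(4 : ℂ)‖ = ‖3 * w‖ := by
      rw [← norm_neg (3 * w)]
      congr 1
      linear_combination h
    rw [norm_mul] at h4
    simp at h4
    linarith
  have h2 : (2 + z 0 * z 1 : ℂ) ≠ 0 := by
    intro h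
    have h4 : ‖(2 : ℂ)‖ = ‖z 0 * z 1‖ := by
      rw [← norm_neg (z 0 * z 1)]
      congr 1
      linear_combination h
    rw [norm_mul] at h4
    simp at h4
    nlinarith [norm_nonneg (z 0), norm_nonneg (z 1)]
  have : eval z f = (4 + 3 * z 0) * (4 + 3 * z 1) * (2 + z 0 * z 1) ^ 2 := by
    simp [f]
  rw [this]
  exact mul_ne_zero (mul_ne_zero (key _ h0) (key _ h1)) (pow_ne_zero _ h2)

/-- table of the coefficients of `(x + y z₁ + w z₂) f - e` -/
def tab (x y w e : ℂ) : Fin 5 → Fin 5 → ℂ :=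
  ![![64 * x - e, 48 * x + 64 * w, 48 * w, 0, 0],
    ![48 * x + 64 * y, 100 * x + 48 * y + 48 * w, 48 * x + 100 * w, 48 * w, 0],
    ![48 * y, 48 * x + 100 * y, 52 * x + 48 * y + 48 * w, 12 * x + 52 * w, 12 * w],
    ![0, 48 * y, 12 * x + 52 * y, 9 * x + 12 * y + 12 * w, 9 * w],
    ![0, 0, 12 * y, 9 * y, 0]]

lemma expand (x y w e : ℂ) :
    (C x + C y * X 0 + C w * X 1) * f - C e =
      ∑ s : Fin 5 × Fin 5, monomial (mono s.1 s.2) (tab x y w e s.1 s.2) := by
  have hm : ∀ (i j : ℕ) (a : ℂ), (monomial (mono i j) a : MvPolynomial (Fin 2) ℂ) =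
      C a * X 0 ^ i * X 1 ^ j := by
    intro i j a
    rw [mono, X_pow_eq_monomial, X_pow_eq_monomial, C_mul_monomial, monomial_mul]
    simp
  simp only [hm]
  rw [Fintype.sum_prod_type]
  have h9 : (C (9 : ℂ) : MvPolynomial (Fin 2) ℂ) = 9 := map_ofNat C 9
  have h12 : (C (12 : ℂ) : MvPolynomial (Fin 2) ℂ) = 12 := map_ofNat C 12
  have h48 : (C (48 : ℂ) : MvPolynomial (Fin 2) ℂ) = 48 := map_ofNat C 48
  have h52 : (C (52 : ℂ) : MvPolynomial (Fin 2) ℂ) = 52 := map_ofNat C 52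
  have h64 : (C (64 : ℂ) : MvPolynomial (Fin 2) ℂ) = 64 := map_ofNat C 64
  have h100 : (C (100 : ℂ) : MvPolynomial (Fin 2) ℂ) = 100 := map_ofNat C 100
  simp only [Fin.sum_univ_five, tab, f]
  simp [h9, h12, h48, h52, h64, h100]
  ring

lemma normSq_expand (x y w e : ℂ) :
    normSqH2 ((C x + C y * X 0 + C w * X 1) * f - C e) =
      ∑ s : Fin 5 × Fin 5, ‖tab x y w e s.1 s.2‖ ^ 2 := by
  rw [expand, normSq_table (fun s => tab x y w e s.1 s.2)]

lemma mem_P_two (p : MvPolynomial (Fin 2) ℂ) :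
    p ∈ P 2 ↔ ∃ x y w : ℂ, p = C x + C y * X 0 + C w * X 1 := by
  constructor
  · intro hp
    refine Submodule.span_induction ?_ ?_ ?_ ?_ hp
    · rintro _ ⟨m, hm, rfl⟩
      unfold pos at hm
      have hs : m 0 + m 1 < 2 := by
        by_contra hcon
        have h2 : 2 ≤ m 0 + m 1 := by omega
        have : 2 * 3 ≤ (m 0 + m 1) * (m 0 + m 1 + 1) := Nat.mul_le_mul h2 (by omega)
        omega
      have hcases : (m 0 = 0 ∧ m 1 = 0) ∨ (m 0 = 1 ∧ m 1 = 0) ∨ (m 0 = 0 ∧ m 1 = 1) := by omega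
      have hmm : m = mono (m 0) (m 1) := by
        ext i
        fin_cases i
        · simp [mono_zero]
        · simp [mono_one]
      rcases hcases with ⟨h0, h1⟩ | ⟨h0, h1⟩ | ⟨h0, h1⟩
      · refine ⟨1, 0, 0, ?_⟩
        rw [hmm, h0, h1]
        simp [mono]
      · refine ⟨0, 1, 0, ?_⟩
        rw [hmm, h0, h1]
        simp [mono, X]
      · refine ⟨0, 0, 1, ?_⟩
        rw [hmm, h0, h1]
        simp [mono, X]
    · exact ⟨0, 0, 0, by simp⟩
    · rintro a b _ _ ⟨x, y, w, rfl⟩ ⟨x', y', w', rfl⟩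
      exact ⟨x + x', y + y', w + w', by simp only [map_add]; ring⟩
    · rintro c a _ ⟨x, y, w, rfl⟩
      refine ⟨c * x, c * y, c * w, ?_⟩
      rw [smul_eq_C_mul]
      simp only [map_mul]
      ring
  · rintro ⟨x, y, w, rfl⟩
    have h1 : (1 : MvPolynomial (Fin 2) ℂ) ∈ P 2 :=
      Submodule.subset_span ⟨0, by simp [pos], by simp⟩
    have h2 : (X 0 : MvPolynomial (Fin 2) ℂ) ∈ P 2 :=
      Submodule.subset_span ⟨Finsupp.single 0 1, by simp [pos], by simp [X]⟩
    have h3 : (X 1 : MvPolynomial (Fin 2) ℂ) ∈ P 2 :=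
      Submodule.subset_span ⟨Finsupp.single 1 1, by simp [pos], by simp [X]⟩
    refine Submodule.add_mem _ (Submodule.add_mem _ ?_ ?_) ?_
    · have := Submodule.smul_mem _ x h1
      rwa [smul_eq_C_mul, mul_one] at this
    · have := Submodule.smul_mem _ y h2
      rwa [smul_eq_C_mul] at this
    · have := Submodule.smul_mem _ w h3
      rwa [smul_eq_C_mul] at this

/-- the squared norm of `(x + y z₁ + w z₂) f - 1` splits off its value at the optimum -/
lemma split (x y w : ℂ) :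
    ∑ s : Fin 5 × Fin 5, ‖tab x y w 1 s.1 s.2‖ ^ 2 =
      ∑ s : Fin 5 × Fin 5, ‖tab (x - 664256 / 105309915) (y + 67840 / 21061983)
        (w + 67840 / 21061983) 0 s.1 s.2‖ ^ 2 +
      ∑ s : Fin 5 × Fin 5, ‖tab (664256 / 105309915) (-67840 / 21061983)
        (-67840 / 21061983) 1 s.1 s.2‖ ^ 2 := by
  simp only [Fintype.sum_prod_type, Fin.sum_univ_five, tab]
  simp only [← Complex.normSq_eq_norm_sq, Complex.normSq_apply]
  obtain ⟨x1, x2⟩ := x
  obtain ⟨y1, y2⟩ := y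
  obtain ⟨w1, w2⟩ := w
  simp
  ring

lemma opt_le (x y w : ℂ) :
    ∑ s : Fin 5 × Fin 5, ‖tab (664256 / 105309915) (-67840 / 21061983)
        (-67840 / 21061983) 1 s.1 s.2‖ ^ 2 ≤ ∑ s : Fin 5 × Fin 5, ‖tab x y w 1 s.1 s.2‖ ^ 2 := by
  rw [split x y w]
  have : 0 ≤ ∑ s : Fin 5 × Fin 5, ‖tab (x - 664256 / 105309915) (y + 67840 / 21061983)
        (w + 67840 / 21061983) 0 s.1 s.2‖ ^ 2 := Finset.sum_nonneg (fun _ _ => by positivity)
  linarith

lemma opt_unique (x y w : ℂ)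
    (h : ∑ s : Fin 5 × Fin 5, ‖tab x y w 1 s.1 s.2‖ ^ 2 ≤
      ∑ s : Fin 5 × Fin 5, ‖tab (664256 / 105309915) (-67840 / 21061983)
        (-67840 / 21061983) 1 s.1 s.2‖ ^ 2) :
    x = 664256 / 105309915 ∧ y = -67840 / 21061983 ∧ w = -67840 / 21061983 := by
  rw [split x y w] at h
  have h0 : ∑ s : Fin 5 × Fin 5, ‖tab (x - 664256 / 105309915) (y + 67840 / 21061983)
        (w + 67840 / 21061983) 0 s.1 s.2‖ ^ 2 = 0 := by
    refine le_antisymm (by linarith) (Finset.sum_nonneg (fun _ _ => by positivity))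
  rw [Finset.sum_eq_zero_iff_of_nonneg (fun _ _ => by positivity)] at h0
  have e1 := h0 (0, 0) (Finset.mem_univ _)
  have e2 := h0 (1, 0) (Finset.mem_univ _)
  have e3 := h0 (0, 1) (Finset.mem_univ _)
  simp [tab] at e1 e2 e3
  have hx : x = 664256 / 105309915 := by linear_combination e1
  subst hx
  simp at e2 e3
  refine ⟨rfl, ?_, ?_⟩
  · linear_combination e2
  · linear_combination e3

/-- **The weak Shanks conjecture on the bidisk is false.** There are a polynomial `f` without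
zeros on the closed bidisk and an index `n` such that the `n`-th optimal polynomial approximant
`q` of `1/f` in `H²(𝔻²)` (it exists and is unique) vanishes at a point of the open bidisk. -/
theorem result : ∃ f : MvPolynomial (Fin 2) ℂ,
    (∀ z : Fin 2 → ℂ, ‖z 0‖ ≤ 1 → ‖z 1‖ ≤ 1 → eval z f ≠ 0) ∧
    ∃ (n : ℕ) (q : MvPolynomial (Fin 2) ℂ), IsOPA f n q ∧ (∀ q', IsOPA f n q' → q' = q) ∧
      ∃ z : Fin 2 → ℂ, ‖z 0‖ < 1 ∧ ‖z 1‖ < 1 ∧ eval z q = 0 := by
  have hone : (1 : MvPolynomial (Fin 2) ℂ) = C 1 := by simp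
  refine ⟨f, f_ne_zero, 2, C (664256 / 105309915) + C (-67840 / 21061983) * X 0 +
    C (-67840 / 21061983) * X 1, ⟨(mem_P_two _).2 ⟨_, _, _, rfl⟩, ?_⟩, ?_,
    fun _ => 10379 / 10600, ?_, ?_, ?_⟩
  · intro p hp
    obtain ⟨x, y, w, rfl⟩ := (mem_P_two _).1 hp
    rw [hone, normSq_expand, normSq_expand]
    exact opt_le x y w
  · rintro q' ⟨hq', hmin⟩
    obtain ⟨x, y, w, rfl⟩ := (mem_P_two _).1 hq'
    have h := hmin _ ((mem_P_two (C (664256 / 105309915) + C (-67840 / 21061983) * X 0 +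
      C (-67840 / 21061983) * X 1)).2 ⟨_, _, _, rfl⟩)
    rw [hone, normSq_expand, normSq_expand] at h
    obtain ⟨rfl, rfl, rfl⟩ := opt_unique x y w h
    rfl
  · norm_num
  · norm_num
  · simp
    norm_num

end Pool.Agent.Results.MP_52e642_an.WeakShanks
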